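import Pool.Agent.Work.MP_af7a01_gl.Nd

/-!
# MP_af7a01_lc: Q1 for co-nondeterministic and for nondeterministic CD complexity

The model of computation is defined in `Pool/Agent/Work/OracleCmd_h91/Cmd.lean`, the interpreters
and the complexity `ic` in `Pool/Agent/Work/MP_af7a01_h91/Model.lean`, `coCD` in
`Pool/Agent/Work/MP_af7a01_gl/Defs.lean` and `ndCD` in `Pool/Agent/Work/MP_af7a01_gl/Nd.lean`.
-/

namespace Pool.Agent.Results.MP_af7a01_lc.CoNondeterministic

open Pool.IC Pool.GL

/-- For every effective interpreter `U`: (1) for every oracle `B`, every set `A`, decidable and not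
in P relative to `B`, every function `h` computable relative to `B` and every polynomial `t` there
is a polynomial `t'` with `h (CcoND^{t'}(x)) ≤ ic^t(x : A)` for infinitely many `x`; (2) there is an
oracle `B` such that for every `h` computable relative to `B` there are a set `A` in E but not in P
relative to `B` and a polynomial `t` such that, for every polynomial `t'`,
`h (ic^t(x : A)) < CND^{t'}(x)` for all but finitely many `x`. -/
theorem result :
    (∃ U : Interpreter, Effective U) ∧
    ∀ U : Interpreter, Effective U →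
      (∀ B A : Set Str, DecidableIn B A → ¬ InP B A →
        ∀ (h : ℕ → ℕ), Computes B h → ∀ t : Polynomial ℕ, ∃ t' : Polynomial ℕ,
          {x | ∃ k : ℕ, coCD U B (fun n => t'.eval n) x = k ∧
            (h k : ℕ∞) ≤ ic U B (fun n => t.eval n) x A}.Infinite) ∧
      ∃ B : Set Str, ∀ h : ℕ → ℕ, Computes B h → ∃ A : Set Str, InE B A ∧ ¬ InP B A ∧
        ∃ t : Polynomial ℕ, ∀ t' : Polynomial ℕ, ∀ᶠ x in Filter.cofinite, ∃ k : ℕ,
          ic U B (fun n => t.eval n) x A = k ∧ (h k : ℕ∞) < ndCD U B (fun n => t'.eval n) x :=
  ⟨coNondeterministic.1, fun U hU => ⟨fun B A hA hP h hh t =>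
    coNondeterministic.2 U hU B A hA hP h hh t, ndFails U hU⟩⟩

end Pool.Agent.Results.MP_af7a01_lc.CoNondeterministic
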