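import Pool.Agent.Work.MP_af7a01_gl.All

/-!
# MP_af7a01_lc: Q1 is a statement about the complexity CD alone, and a gap law

The model of computation is defined in `Pool/Agent/Work/OracleCmd_h91/Cmd.lean`, the interpreters
and the complexities `ic`, `CD` in `Pool/Agent/Work/MP_af7a01_h91/Model.lean`, `CK` (the complexity
`C`) in `Pool/Agent/Work/MP_af7a01_sep/Cpx.lean`, and the four statements `Q1for`, `Weakest`,
`Strongest`, `NoBound` in `Pool/Agent/Work/MP_af7a01_gl/Defs.lean`.
-/

namespace Pool.Agent.Results.MP_af7a01_lc.GapLaw

open Pool.IC Pool.GL

/-- There are effective interpreters (every program which simulates all programs is one), and for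
every effective interpreter `U`, every oracle `B` and `D = CD^{t'}`, or `D = C^{t'}`, or any family
`D` with finite sublevel sets, the following are equivalent relative to `B`: the statement of Q1
for `D`; its weakest form (some computable comparison function, sets in E); its strongest form
(every computable comparison function, all decidable sets); no unbounded polynomial time computable
function is almost everywhere a lower bound of all the complexities `D`. -/
theorem result :
    (∃ U : Interpreter, Effective U) ∧
    (∀ (C : Cmd) (hC : ∀ M : Cmd, ∃ (e : Str) (q : Polynomial ℕ), ∀ (B : Set Str) (p y z : Str)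
      (n : ℕ) (o : Str), out B M p y z n = some o → out B C (e ++ p) y z (q.eval n) = some o),
      Effective (ofCmd C hC)) ∧
    ∀ U : Interpreter, Effective U → ∀ B : Set Str,
      (let D := fun t : Polynomial ℕ => CD U B (fun n => t.eval n)
       [Q1for U B D, Weakest U B D, Strongest U B D, NoBound B D].TFAE) ∧
      (let D := fun t : Polynomial ℕ => CK U B (fun n => t.eval n)
       [Q1for U B D, Weakest U B D, Strongest U B D, NoBound B D].TFAE) ∧
      ∀ (ι : Type) (D : ι → Str → ℕ∞), FinSub D →
        [Q1for U B D, Weakest U B D, Strongest U B D, NoBound B D].TFAE :=
  gapLaw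

end Pool.Agent.Results.MP_af7a01_lc.GapLaw
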