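import Pool.Agent.Work.MP_af7a01_h91.Final

/-!
# MP_af7a01_lc: the CD-version of the instance complexity conjecture fails relative to an oracle

The model of computation is defined in `Pool/Agent/Work/OracleCmd_h91/Cmd.lean`, the interpreters
and the complexities `ic`, `CD` in `Pool/Agent/Work/MP_af7a01_h91/Model.lean`; `direct` in
`Inst.lean` is an interpreter, and every program of the model that simulates all programs is one
(`ofCmd`).
-/

namespace Pool.Agent.Results.MP_af7a01_lc.RelativizedFailure

open Pool.IC

/-- For every interpreter `U` and every function `h` there are an oracle `B` and a set `A`,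
decidable relative to `B`, not in P relative to `B` (not even decidable in time `2 ^ (n / 16)`),
in UP and in coUP relative to `B`, and a polynomial `t`, such that for every time bound `t'` which
is eventually at most `2 ^ (n / 16)` and every `c`, `h (ic^t(x : A)) + c < CD^{t'}(x)` for all but
finitely many `x`; moreover, for all but finitely many `x`, `ic^t(x : A)` is at most a constant
or `CD^{t'}(x)` is at least `|x| / 8`. -/
theorem result : Nonempty Interpreter ∧ ∀ (U : Interpreter) (h : ℕ → ℕ), ∃ B A : Set Str,
    DecidableIn B A ∧ ¬ InP B A ∧ (∀ t : ℕ → ℕ, Small t → ¬ InTime B t A) ∧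
    InUP B A ∧ InUP B Aᶜ ∧
    ∃ (t : Polynomial ℕ) (c₀ : ℕ), ∀ t' : ℕ → ℕ, Small t' →
      (∀ c : ℕ, ∀ᶠ x in Filter.cofinite, ∃ i : ℕ,
        ic U B (fun n => t.eval n) x A = i ∧ ((h i + c : ℕ) : ℕ∞) < CD U B t' x) ∧
      ∀ᶠ x in Filter.cofinite,
        ic U B (fun n => t.eval n) x A ≤ c₀ ∨ (x.length : ℕ∞) ≤ 8 * CD U B t' x :=
  ⟨⟨direct⟩, fun U h => main U h⟩

end Pool.Agent.Results.MP_af7a01_lc.RelativizedFailure
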