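import Pool.Agent.Work.MP_af7a01_sep.PartB

/-!
# MP_af7a01_lc: an oracle relative to which Q1 holds although the C-version fails

The model of computation is defined in `Pool/Agent/Work/OracleCmd_h91/Cmd.lean`, the interpreters
and the complexities `ic`, `CD` in `Pool/Agent/Work/MP_af7a01_h91/Model.lean`, the complexity `CK`
(time-bounded Kolmogorov complexity) in `Pool/Agent/Work/MP_af7a01_sep/Cpx.lean`; `direct` in
`Pool/Agent/Work/MP_af7a01_h91/Inst.lean` is an interpreter.
-/

namespace Pool.Agent.Results.MP_af7a01_lc.Separation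

open Pool.IC

/-- For every interpreter `U` and every function `h` there is an oracle `W` such that, relative to
`W`, the statement of Q1 holds for all decidable sets outside P, whereas some decidable set `A`
outside P (which is in UP and in coUP and cannot be decided in time `2 ^ (n / 16)`) has no p-hard
instances; more precisely, for some polynomial `t` and every time bound `t'` which is eventually
at most `2 ^ (n / 16)` and every `c`, `h (ic^t(x : A)) + c < C^{t'}(x)` for all but finitely many
`x`, and `ic^t(x : A)` is at most a constant or `C^{t'}(x)` is at least `|x| / 2` for all but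
finitely many `x`. -/
theorem result : Nonempty Interpreter ∧ ∀ (U : Interpreter) (h : ℕ → ℕ), ∃ W : Set Str,
    (∀ A : Set Str, DecidableIn W A → ¬ InP W A → ∀ t : Polynomial ℕ,
      ∃ (t' : Polynomial ℕ) (c : ℕ), {x | CD U W (fun n => t'.eval n) x ≤
        ic U W (fun n => t.eval n) x A + c}.Infinite) ∧
    ∃ A : Set Str, DecidableIn W A ∧ ¬ InP W A ∧ (∀ t : ℕ → ℕ, Small t → ¬ InTime W t A) ∧
      InUP W A ∧ InUP W Aᶜ ∧ ∃ (t : Polynomial ℕ) (c₀ : ℕ), ∀ t' : ℕ → ℕ, Small t' →
        (∀ c : ℕ, ∀ᶠ x in Filter.cofinite, ∃ i : ℕ,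
          ic U W (fun n => t.eval n) x A = i ∧ ((h i + c : ℕ) : ℕ∞) < CK U W t' x) ∧
        ∀ᶠ x in Filter.cofinite,
          ic U W (fun n => t.eval n) x A ≤ c₀ ∨ (x.length : ℕ∞) ≤ 2 * CK U W t' x :=
  ⟨⟨direct⟩, fun U h => Pool.ICS.main U h⟩

end Pool.Agent.Results.MP_af7a01_lc.Separation
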